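import Mathlib
import Pool.Agent.U398.MV.Stm

set_option autoImplicit false

/-! Project MV, package MT: the main term. -/

namespace Pool.Agent.U338.MV.MT

open Pool.Agent.U398.MV MeasureTheory Filter Topology Set

lemma int_inv_sq (c b : ℝ) (hb : 1 ≤ b) :
    ∫ u in (1 : ℝ)..b, c / u ^ 2 = c * (1 - 1 / b) := by
  have h : ∀ u ∈ uIcc (1 : ℝ) b, HasDerivAt (fun u : ℝ => -c / u) (c / u ^ 2) u := by
    intro u hu
    rw [uIcc_of_le hb] at hu
    have hu0 : u ≠ 0 := by have := hu.1; positivity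
    have := (hasDerivAt_inv hu0).const_mul (-c)
    have e : (fun u : ℝ => -c / u) = fun u => -c * u⁻¹ := by
      ext x
      rw [div_eq_mul_inv]
    rw [e]
    have e2 : c / u ^ 2 = -c * -(u ^ 2)⁻¹ := by rw [neg_mul_neg, div_eq_mul_inv]
    rw [e2]
    exact this
  rw [intervalIntegral.integral_eq_sub_of_hasDerivAt h]
  · have hb0 : b ≠ 0 := by positivity
    field_simp
    ring
  · apply ContinuousOn.intervalIntegrable
    apply ContinuousOn.div continuousOn_const (by fun_prop)
    intro u hu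
    rw [uIcc_of_le hb] at hu
    have := hu.1
    positivity

lemma log_small (h : ℝ) (h0 : 0 < h) (h1 : h ≤ 1) :
    |(Real.exp (h ^ 2 / 4) - 1) * Real.log h| ≤ 1 := by
  have hx : h ^ 2 / 4 ≤ 1 := by nlinarith
  have e1 : Real.exp (h ^ 2 / 4) - 1 ≤ h := by
    have h2 : 0 ≤ h ^ 2 / 4 := by positivity
    have := Real.abs_exp_sub_one_le (x := h ^ 2 / 4) (by rw [abs_of_nonneg h2]; exact hx)
    rw [abs_of_nonneg h2] at this
    have h3 := le_abs_self (Real.exp (h ^ 2 / 4) - 1)
    nlinarith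
  have e0 : 0 ≤ Real.exp (h ^ 2 / 4) - 1 := by
    have := Real.add_one_le_exp (h ^ 2 / 4)
    have h2 : 0 ≤ h ^ 2 / 4 := by positivity
    linarith
  have l0 : Real.log h ≤ 0 := Real.log_nonpos h0.le h1
  have l1 : -Real.log h ≤ 1 / h := by
    have := Real.log_le_sub_one_of_pos (x := 1 / h) (by positivity)
    rw [one_div, Real.log_inv] at this
    rw [one_div]
    linarith
  rw [abs_mul, abs_of_nonneg e0, abs_of_nonpos l0]
  calc (Real.exp (h ^ 2 / 4) - 1) * -Real.log h ≤ h * (1 / h) := by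
        apply mul_le_mul e1 l1 (by linarith) h0.le
    _ = 1 := by field_simp

theorem t_MT : S_R → S_VC → S_PP → S_MT := by
  rintro ⟨CR, hCR, hR⟩ ⟨CV, hCV, hV⟩ ⟨CP, T0, hCP, hT0, hVc, -, hV0, hVb, -⟩
  refine ⟨2 * CP + 2 * CR * CP + CV + 1, by positivity, ?_⟩
  intro L hL h hh1 hh2
  have hLpos : 0 < L := by linarith
  have hhpos : 0 < h := lt_of_lt_of_le (by positivity) hh1
  obtain ⟨hrc, -, -, hr1, -, hr3, -⟩ := hR h hhpos hh2
  have hL2 : (1 : ℝ) ≤ L / 2 := by linarith
  have hA0 := hV L hL 0 le_rfl zero_le_one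
  have hAh := hV L hL h hhpos.le hh2
  rw [max_eq_left (by positivity)] at hA0
  rw [max_eq_right hh1] at hAh
  set A : ℝ → ℝ := fun k => ∫ u in (1 : ℝ)..(L / 2), Vp u * Real.cos (u * k) / u ^ 2 with hA
  have hA0' : |A 0 - Real.sqrt Real.pi * Real.log L| ≤ CV := by
    have : Real.log (1 / L) = -Real.log L := by rw [one_div, Real.log_inv]
    rw [this] at hA0
    have e : A 0 - Real.sqrt Real.pi * Real.log L = A 0 + Real.sqrt Real.pi * -Real.log L := by ring
    rw [e]
    exact hA0
  have hAh' : |A h + Real.sqrt Real.pi * Real.log h| ≤ CV := hAh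
  have hne : ∀ u ∈ uIcc (1 : ℝ) (L / 2), u ≠ 0 := by
    intro u hu
    rw [uIcc_of_le hL2] at hu
    have := hu.1
    positivity
  have hcont : ∀ k, ContinuousOn (fun u => Vp u * Real.cos (u * k) / u ^ 2) (uIcc 1 (L / 2)) := by
    intro k
    apply ContinuousOn.div
    · exact (hVc.mul (by fun_prop)).continuousOn
    · fun_prop
    · intro u hu
      exact pow_ne_zero 2 (hne u hu)
  have hint : ∀ k, IntervalIntegrable (fun u => Vp u * Real.cos (u * k) / u ^ 2) volume 1 (L / 2) :=
    fun k => (hcont k).intervalIntegrable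
  -- split
  have hrV : Continuous fun u => rr h u * Vp u := hrc.mul hVc
  have hsplit : ∫ u in (0 : ℝ)..(L / 2), rr h u * Vp u =
      (∫ u in (0 : ℝ)..1, rr h u * Vp u) + ∫ u in (1 : ℝ)..(L / 2), rr h u * Vp u :=
    (intervalIntegral.integral_add_adjacent_intervals (hrV.intervalIntegrable _ _)
      (hrV.intervalIntegrable _ _)).symm
  have hB1 : |∫ u in (0 : ℝ)..1, rr h u * Vp u| ≤ 2 * CP := by
    have : ∀ u ∈ uIoc (0 : ℝ) 1, ‖rr h u * Vp u‖ ≤ 2 * CP := by
      intro u hu
      rw [uIoc_of_le zero_le_one] at hu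
      rw [Real.norm_eq_abs, abs_mul, abs_of_nonneg (hV0 u)]
      have h1 : |rr h u| ≤ 1 := (hr1 u).trans (by nlinarith)
      have h2 : Vp u ≤ CP * 2 := (hVb u hu.1.le).trans (by nlinarith [hu.2])
      calc |rr h u| * Vp u ≤ 1 * (CP * 2) := mul_le_mul h1 h2 (hV0 u) zero_le_one
        _ = 2 * CP := by ring
    have := intervalIntegral.norm_integral_le_of_norm_le_const this
    rw [Real.norm_eq_abs] at this
    simpa using this
  set M : ℝ → ℝ := fun u => 1 / (Real.pi * u ^ 2) * (1 - Real.exp (h ^ 2 / 4) * Real.cos (u * h))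
    with hM
  have hMc : ContinuousOn (fun u => M u * Vp u) (uIcc 1 (L / 2)) := by
    apply ContinuousOn.mul _ hVc.continuousOn
    apply ContinuousOn.mul
    · apply ContinuousOn.div continuousOn_const (by fun_prop)
      intro u hu
      exact mul_ne_zero Real.pi_ne_zero (pow_ne_zero 2 (hne u hu))
    · fun_prop
  have hMi : IntervalIntegrable (fun u => M u * Vp u) volume 1 (L / 2) := hMc.intervalIntegrable
  have hB2 : |(∫ u in (1 : ℝ)..(L / 2), rr h u * Vp u) - ∫ u in (1 : ℝ)..(L / 2), M u * Vp u| ≤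
      2 * CR * CP := by
    rw [← intervalIntegral.integral_sub (hrV.intervalIntegrable _ _) hMi]
    have hb : ∀ u ∈ Ioc (1 : ℝ) (L / 2), ‖rr h u * Vp u - M u * Vp u‖ ≤ 2 * CR * CP / u ^ 2 := by
      intro u hu
      have hu1 : 1 ≤ u := hu.1.le
      have hu0 : 0 < u := by linarith
      rw [← sub_mul, Real.norm_eq_abs, abs_mul, abs_of_nonneg (hV0 u)]
      have h1 := hr3 u hu1
      have h2 := hVb u hu0.le
      have h3 : CR * h / u ^ 3 ≤ CR / u ^ 3 := by
        apply div_le_div_of_nonneg_right _ (by positivity)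
        nlinarith
      have h4 : Vp u ≤ CP * (2 * u) := h2.trans (by nlinarith)
      calc |rr h u - M u| * Vp u ≤ (CR / u ^ 3) * (CP * (2 * u)) :=
            mul_le_mul (h1.trans h3) h4 (hV0 u) (by positivity)
        _ = 2 * CR * CP / u ^ 2 := by field_simp
    have hgi : IntervalIntegrable (fun u : ℝ => 2 * CR * CP / u ^ 2) volume 1 (L / 2) := by
      apply ContinuousOn.intervalIntegrable
      apply ContinuousOn.div continuousOn_const (by fun_prop)
      intro u hu
      exact pow_ne_zero 2 (hne u hu)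
    have := intervalIntegral.norm_integral_le_of_norm_le hL2 (Filter.Eventually.of_forall hb) hgi
    rw [Real.norm_eq_abs, int_inv_sq _ _ hL2] at this
    refine this.trans ?_
    have : 0 ≤ 1 / (L / 2) := by positivity
    have h5 : 0 ≤ 2 * CR * CP := by positivity
    nlinarith
  have hMval : ∫ u in (1 : ℝ)..(L / 2), M u * Vp u =
      1 / Real.pi * (A 0 - Real.exp (h ^ 2 / 4) * A h) := by
    have e1 : ∫ u in (1 : ℝ)..(L / 2), M u * Vp u = ∫ u in (1 : ℝ)..(L / 2),
        (1 / Real.pi * (Vp u * Real.cos (u * 0) / u ^ 2) -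
          (1 / Real.pi * Real.exp (h ^ 2 / 4)) * (Vp u * Real.cos (u * h) / u ^ 2)) := by
      apply intervalIntegral.integral_congr
      intro u hu
      have hu0 := hne u hu
      simp only [hM, mul_zero, Real.cos_zero]
      field_simp
    rw [e1, intervalIntegral.integral_sub ((hint 0).const_mul _) ((hint h).const_mul _),
      intervalIntegral.integral_const_mul, intervalIntegral.integral_const_mul]
    simp only [hA]
    ring
  have hexp0 : 0 < Real.exp (h ^ 2 / 4) := Real.exp_pos _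
  have hexp2 : Real.exp (h ^ 2 / 4) ≤ 2 := by
    have h2 : h ^ 2 / 4 ≤ 1 / 4 := by nlinarith
    have h3 := Real.abs_exp_sub_one_le (x := h ^ 2 / 4) (by rw [abs_of_nonneg (by positivity)]; linarith)
    rw [abs_of_nonneg (a := h ^ 2 / 4) (by positivity)] at h3
    have h4 := le_abs_self (Real.exp (h ^ 2 / 4) - 1)
    linarith
  have hsq : 0 < Real.sqrt Real.pi := Real.sqrt_pos.2 Real.pi_pos
  have hsq1 : 1 ≤ Real.sqrt Real.pi := by
    rw [Real.one_le_sqrt]
    linarith [Real.pi_gt_three]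
  have hsqsq : Real.sqrt Real.pi * Real.sqrt Real.pi = Real.pi := Real.mul_self_sqrt Real.pi_pos.le
  have hB3 : |1 / Real.pi * (A 0 - Real.exp (h ^ 2 / 4) * A h) -
      1 / Real.sqrt Real.pi * Real.log (h * L)| ≤ CV + 1 := by
    have e : 1 / Real.pi * (A 0 - Real.exp (h ^ 2 / 4) * A h) -
        1 / Real.sqrt Real.pi * Real.log (h * L) =
        1 / Real.pi * ((A 0 - Real.sqrt Real.pi * Real.log L) -
          Real.exp (h ^ 2 / 4) * (A h + Real.sqrt Real.pi * Real.log h)) +
        1 / Real.sqrt Real.pi * ((Real.exp (h ^ 2 / 4) - 1) * Real.log h) := by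
      rw [Real.log_mul hhpos.ne' hLpos.ne']
      have : 1 / Real.sqrt Real.pi = 1 / Real.pi * Real.sqrt Real.pi := by
        rw [eq_comm, div_mul_eq_mul_div, one_mul, div_eq_div_iff Real.pi_ne_zero hsq.ne', one_mul,
          hsqsq]
      rw [this]
      ring
    rw [e]
    have h1 : |1 / Real.pi * ((A 0 - Real.sqrt Real.pi * Real.log L) -
          Real.exp (h ^ 2 / 4) * (A h + Real.sqrt Real.pi * Real.log h))| ≤ CV := by
      rw [abs_mul, abs_of_pos (by positivity : 0 < 1 / Real.pi)]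
      have h2 : |(A 0 - Real.sqrt Real.pi * Real.log L) -
          Real.exp (h ^ 2 / 4) * (A h + Real.sqrt Real.pi * Real.log h)| ≤ CV + 2 * CV := by
        refine (abs_sub _ _).trans ?_
        rw [abs_mul, abs_of_pos hexp0]
        exact add_le_add hA0' (mul_le_mul hexp2 hAh' (abs_nonneg _) (by norm_num))
      have h3 : 1 / Real.pi ≤ 1 / 3 := one_div_le_one_div_of_le (by norm_num) Real.pi_gt_three.le
      calc 1 / Real.pi * _ ≤ 1 / 3 * (CV + 2 * CV) :=
            mul_le_mul h3 h2 (abs_nonneg _) (by norm_num)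
        _ = CV := by ring
    have h4 : |1 / Real.sqrt Real.pi * ((Real.exp (h ^ 2 / 4) - 1) * Real.log h)| ≤ 1 := by
      rw [abs_mul, abs_of_pos (by positivity : 0 < 1 / Real.sqrt Real.pi)]
      have h5 : 1 / Real.sqrt Real.pi ≤ 1 := by
        rw [div_le_one hsq]
        exact hsq1
      calc 1 / Real.sqrt Real.pi * |(Real.exp (h ^ 2 / 4) - 1) * Real.log h| ≤ 1 * 1 :=
            mul_le_mul h5 (log_small h hhpos hh2) (abs_nonneg _) zero_le_one
        _ = 1 := by ring
    exact (abs_add_le _ _).trans (add_le_add h1 h4)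
  rw [hMval] at hB2
  rw [hsplit]
  have key : (∫ u in (0 : ℝ)..1, rr h u * Vp u) + (∫ u in (1 : ℝ)..(L / 2), rr h u * Vp u) -
      1 / Real.sqrt Real.pi * Real.log (h * L) =
      (∫ u in (0 : ℝ)..1, rr h u * Vp u) +
      ((∫ u in (1 : ℝ)..(L / 2), rr h u * Vp u) - 1 / Real.pi * (A 0 - Real.exp (h ^ 2 / 4) * A h)) +
      (1 / Real.pi * (A 0 - Real.exp (h ^ 2 / 4) * A h) -
        1 / Real.sqrt Real.pi * Real.log (h * L)) := by ring
  rw [key]
  refine (abs_add_three _ _ _).trans ?_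
  linarith

end Pool.Agent.U338.MV.MT
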